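import Pool.Agent.E8helper11.GS.Stm

/-!
# Project GS, part ENUM: the enumeration of the union of the blocks
-/

set_option autoImplicit false

open Filter Topology
open scoped Classical

namespace Pool.Agent.E8helper87.GS

open Pool.Agent.E8helper11.GS

theorem t_ENUM : Pool.Agent.E8helper11.GS.S_ENUM := by
  intro m B hB hm hLo
  set P : ℕ → Prop := fun q => ∃ k, q ∈ B k with hP
  have hmem : ∀ k q, q ∈ B k → 4 ^ k ≤ q ∧ q < 4 ^ (k + 1) := by
    intro k q hq
    have h := hB k hq
    simp only [Cb, Finset.mem_filter, Finset.mem_Ico] at h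
    exact h.1
  have hlt : ∀ k q l, q ∈ B l → (q < 4 ^ k ↔ l < k) := by
    intro k q l hq
    obtain ⟨h1, h2⟩ := hmem l q hq
    constructor
    · intro h
      by_contra hcon
      have h3 : (4 : ℕ) ^ k ≤ 4 ^ l := Nat.pow_le_pow_right (by norm_num) (by omega)
      omega
    · intro h
      have h3 : (4 : ℕ) ^ (l + 1) ≤ 4 ^ k := Nat.pow_le_pow_right (by norm_num) (by omega)
      omega
  have hfil : ∀ k, (Finset.range (4 ^ k)).filter P = (Finset.range k).biUnion B := by
    intro k
    ext q
    simp only [Finset.mem_filter, Finset.mem_range, Finset.mem_biUnion, hP]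
    constructor
    · rintro ⟨h1, l, hl⟩
      exact ⟨l, (hlt k q l hl).1 h1, hl⟩
    · rintro ⟨l, hlk, hl⟩
      exact ⟨(hlt k q l hl).2 hlk, l, hl⟩
  have hcount : ∀ k, Nat.count P (4 ^ k) = Ms m k := by
    intro k
    rw [Nat.count_eq_card_filter_range, hfil k, Finset.card_biUnion]
    · exact Finset.sum_congr rfl (fun i _ => hm i)
    · intro i _ j _ hij
      show Disjoint (B i) (B j)
      rw [Finset.disjoint_left]
      intro q hqi hqj
      obtain ⟨h1, h2⟩ := hmem i q hqi
      have h3 := (hlt (i + 1) q j hqj).1 h2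
      obtain ⟨h4, h5⟩ := hmem j q hqj
      have h6 := (hlt (j + 1) q i hqi).1 h5
      exact hij (by omega)
  have hinf : (Set.ofPred P).Infinite := by
    obtain ⟨k0, hk0⟩ := eventually_atTop.1 hLo
    rw [Set.infinite_iff_exists_gt]
    intro a
    set k := k0 + a + 1 with hk
    have h1 : 1 ≤ m k := by
      have := hk0 k (by omega)
      have h2 : 1 ≤ k ^ 4 := Nat.one_le_pow _ _ (by omega)
      omega
    have h2 : (B k).Nonempty := by
      rw [← Finset.card_pos, hm k]
      omega
    obtain ⟨q, hq⟩ := h2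
    refine ⟨q, ⟨k, hq⟩, ?_⟩
    have h3 := (hmem k q hq).1
    have h4 : k < 4 ^ k := Nat.lt_pow_self (by norm_num)
    omega
  refine ⟨Nat.nth P, Nat.nth_strictMono hinf, fun i => Nat.nth_mem_of_infinite hinf i, ?_, ?_⟩
  · intro k q hq
    exact ⟨Nat.count P q, Nat.nth_count (p := P) ⟨k, hq⟩⟩
  · intro i k
    rw [← hcount k]
    constructor
    · intro h
      by_contra hcon
      have h3 : Nat.count P (4 ^ k) ≤ i := by omega
      have h4 : Nat.nth P (Nat.count P (4 ^ k)) ≤ Nat.nth P i :=
        (Nat.nth_monotone hinf) h3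
      have h5 : 4 ^ k ≤ Nat.nth P (Nat.count P (4 ^ k)) := Nat.le_nth_count hinf _
      omega
    · intro h
      exact Nat.nth_lt_of_lt_count h

end Pool.Agent.E8helper87.GS
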